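import Pool.Agent.H53.MW.Targets

/-!
Row INV of mwk_modules (MP_c62aed_lc): the cube matters only on its set of variables.
-/

set_option autoImplicit false

namespace Pool.Agent.H13.MWK

open Pool.Agent.H53.MW

theorem pf_INV : T_INV := by
  intro n M k g d s₀ A x y Q hxy hQ
  refine ⟨hQ.ne, fun z hz i hi => ?_, hQ.spr⟩
  exact (hQ.inc z hz i hi).trans (hxy i hi)

end Pool.Agent.H13.MWK
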